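import Mathlib
import Pool.Agent.Helper45.N4.Padic
import Pool.Agent.Helper45.N4.Crv
import Pool.Agent.Helper66.N4.NoPair4

/-!
# Project N4: assembly of the dynamics
-/

set_option autoImplicit false

namespace Pool.Agent.Helper28.N4

open MvPolynomial Pool.Agent.Helper64.HK Pool.Agent.Helper24.HK Pool.Agent.Helper16.N4
open Pool.Agent.Helper28.HN (I aff)

/-- From configurations to `NoPair`. -/
theorem np_of_exc {k m : ℕ} (hm : 2 ≤ m) {a : Fin (k + 1) → Fin (m + 1)} (h : ExC a) : NP a := by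
  obtain ⟨s, Δ, hΔ, H⟩ := h
  refine ⟨Δ, hΔ, fun K _ _ c hc => ?_⟩
  obtain ⟨L, _, _, _, xL, hE, hP, hJ⟩ := H K c hc
  obtain ⟨p, hpp, φ, c', x', K1, hp, hfin, hφ, hx', hc', hcfg⟩ :=
    Pool.Agent.Helper45.N4.exists_padic4 s (fun e => algebraMap K L (c e)) xL hE hP hJ
  obtain ⟨K', hfin', hle, hcrv⟩ := Pool.Agent.Helper45.N4.exists_crv hp (fun e => (c' e : ℚ_[p])) s
    (fun i => (x' i : ℚ_[p])) (Pool.Agent.Helper45.N4.nod_of_cfg c' s x' hcfg) K1
    (fun e => by rw [hc']; exact hφ _) hx'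
  have hcz : CharZero K' := charZero_of_injective_algebraMap (algebraMap ℚ K').injective
  have hnf : NumberField K' := { to_charZero := hcz, to_finiteDimensional := hfin' }
  let ρ : K →+* K' := (φ.comp (algebraMap K L)).codRestrict K'.toSubfield fun x => hle (hφ _)
  have hnp : NoPair (K := K'.toSubfield) (fun e => ρ (c e)) :=
    Pool.Agent.Helper66.N4.nopair_p4 hp hm c' s x' hcfg K'.toSubfield (fun e => ρ (c e))
      (fun e => (hc' e).symm) (fun i => hle (hx' i)) hcrv
  exact ⟨K', inferInstance, hnf, ρ.toAlgebra, hnp⟩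

end Pool.Agent.Helper28.N4
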