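import Mathlib
import Pool.Agent.Helper16.N4.Crv

/-!
# Project N4: permutation of the forms
-/

set_option autoImplicit false

namespace Pool.Agent.Helper28.N4

open MvPolynomial Pool.Agent.Helper64.HK Pool.Agent.Helper24.HK Pool.Agent.Helper16.N4
open Pool.Agent.Helper28.HN (I aff)

section perm

variable {k m : ℕ} (a : Fin (k + 1) → Fin (m + 1)) (σ : Equiv.Perm (Fin (m + 1)))

/-- The factors in which the form `i` has degree two. -/
def eqj (i : Fin (m + 1)) : {j // a j = i} ≃ {j // (fun j => σ (a j)) j = σ i} :=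
  Equiv.subtypeEquivRight fun j => by
    show a j = i ↔ σ (a j) = σ i
    exact σ.injective.eq_iff.symm

/-- The coefficients of the permuted forms. -/
def eqx : Ix a ≃ Ix (fun j => σ (a j)) :=
  Equiv.sigmaCongr σ fun i =>
    Equiv.prodCongr (Equiv.refl _) (Equiv.arrowCongr (eqj a σ i) (Equiv.refl _))

variable {a σ} {S : Type*} [CommRing S]

theorem Mf_perm (c : Ix a → S) (i : Fin (m + 1)) (U V : Fin (k + 1) → I m → S) :
    Mf (fun e => c ((eqx a σ).symm e)) (σ i) U V = Mf c i U V := by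
  unfold Mf
  refine Finset.sum_congr rfl fun p _ => ?_
  rw [← (Equiv.arrowCongr (eqj a σ i) (Equiv.refl (I m))).sum_comp]
  refine Finset.sum_congr rfl fun q _ => ?_
  have h1 : (eqx a σ).symm ⟨σ i, p, (Equiv.arrowCongr (eqj a σ i) (Equiv.refl (I m))) q⟩ =
      ⟨i, p, q⟩ := by
    rw [Equiv.symm_apply_eq]
    rfl
  beta_reduce
  rw [h1]
  congr 1
  rw [← (eqj a σ i).prod_comp]
  refine Finset.prod_congr rfl fun j _ => ?_
  rw [Equiv.arrowCongr_apply]
  simp [eqj]

theorem Ef_perm (c : Ix a → S) (i : Fin (m + 1)) (X : Fin (k + 1) → I m → S) :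
    Ef (fun e => c ((eqx a σ).symm e)) (σ i) X = Ef c i X := Mf_perm c i X X

theorem onX_perm (c : Ix a → S) (X : Fin (k + 1) → I m → S) :
    OnX (fun e => c ((eqx a σ).symm e)) X ↔ OnX c X := by
  constructor
  · intro h i
    rw [← Ef_perm (σ := σ)]
    exact h _
  · intro h i
    obtain ⟨i, rfl⟩ := σ.surjective i
    rw [Ef_perm]
    exact h _

theorem noPair_perm {K : Type*} [Field K] (c : Ix a → K)
    (h : NoPair (fun e => c ((eqx a σ).symm e))) : NoPair c := by
  intro F1 F2 hF
  obtain ⟨P, hP, h1, h2⟩ := h F1 F2 hF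
  exact ⟨P, (onX_perm c P).1 hP, h1, h2⟩

/-- PERM: permutation of the forms. -/
theorem np_perm {a : Fin (k + 1) → Fin (m + 1)} (σ : Equiv.Perm (Fin (m + 1)))
    (h : NP fun j => σ (a j)) : NP a := by
  obtain ⟨Δ, hΔ, H⟩ := h
  refine ⟨rename (eqx a σ).symm Δ, ?_, fun K _ _ c hc => ?_⟩
  · intro h0
    exact hΔ (rename_injective _ (eqx a σ).symm.injective (by rw [h0, map_zero]))
  · rw [aeval_rename] at hc
    obtain ⟨L, _, _, _, hL⟩ := H K (fun e => c ((eqx a σ).symm e)) hc
    exact ⟨L, inferInstance, inferInstance, inferInstance, noPair_perm _ hL⟩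

end perm

/-- The result for `n = 4`. -/
theorem nopair4_of (h1 : NP (![0, 0] : Fin (1 + 1) → Fin (3 + 1)))
    (h2 : NP (![0, 1] : Fin (1 + 1) → Fin (3 + 1))) (a : Fin (1 + 1) → Fin (3 + 1)) : NP a := by
  by_cases h : a 0 = a 1
  · refine np_perm (Equiv.swap (a 0) 0) ?_
    have : (fun j => (Equiv.swap (a 0) 0) (a j)) = ![0, 0] := by
      funext j
      fin_cases j
      · simp
      · simp [← h]
    rw [this]
    exact h1
  · obtain ⟨σ, hσ⟩ : ∃ σ : Equiv.Perm (Fin (3 + 1)), σ (a 0) = 0 ∧ σ (a 1) = 1 := by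
      generalize a 0 = x at *
      generalize a 1 = y at *
      revert x y
      decide
    refine np_perm σ ?_
    have : (fun j => σ (a j)) = ![0, 1] := by
      funext j
      fin_cases j
      · exact hσ.1
      · exact hσ.2
    rw [this]
    exact h2

end Pool.Agent.Helper28.N4
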