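import Mathlib
import Pool.Agent.Helper28.N4.Asm
import Pool.Agent.Helper28.N4.Perm

/-!
# Project N4: the result
-/

set_option autoImplicit false

namespace Pool.Agent.Helper28.N4

open Pool.Agent.Helper16.N4

/-- `NoPair` for `n = 4` and two factors. -/
theorem nopair4_of_exc (h1 : ExC (![0, 0] : Fin (1 + 1) → Fin (3 + 1)))
    (h2 : ExC (![0, 1] : Fin (1 + 1) → Fin (3 + 1))) (a : Fin (1 + 1) → Fin (3 + 1)) : NP a :=
  nopair4_of (np_of_exc (by norm_num) h1) (np_of_exc (by norm_num) h2) a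

end Pool.Agent.Helper28.N4
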