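import Mathlib
import Pool.Agent.Helper28.N4.NoPair4
import Pool.Agent.Helper76.N4.Exc1
import Pool.Agent.Helper88.N4.Exc2

/-!
# Project N4: the result
-/

set_option autoImplicit false

namespace Pool.Agent.Helper28.N4

open Pool.Agent.Helper16.N4

/-- `NoPair` for `n = 4` and two factors. -/
theorem nopair4 (a : Fin (1 + 1) → Fin (3 + 1)) : NP a :=
  nopair4_of_exc Pool.Agent.Helper76.N4.exc1 Pool.Agent.Helper88.N4.exc2 a

end Pool.Agent.Helper28.N4
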